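import Pool.Agent.Y305.WD.Stm

/-! Bounded pointwise convergent sequences in `C(K)` converge weakly. -/

set_option autoImplicit false

open Filter Topology Set
open scoped ENNReal NNReal
open Pool.Agent.H86R3 Pool.Agent.H86R3.Wnc

namespace Pool.Agent.Y177.WD

open Pool.Agent.Y305.WD

universe u

theorem dct_real {K : Type u} [TopologicalSpace K] [CompactSpace K] [T2Space K]
    (μ : C(K, ℂ) →L[ℝ] ℝ) (l : ℕ → C(K, ℂ)) (M : ℝ) (hM : ∀ n, ‖l n‖ ≤ M)
    (hl : ∀ x, Tendsto (fun n => l n x) atTop (𝓝 0)) :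
    Tendsto (fun n => μ (l n)) atTop (𝓝 0) := by
  rw [Metric.tendsto_atTop]
  intro ε hε
  set M1 : ℝ := |M| + 1 with hM1
  have hM10 : 0 < M1 := by positivity
  have hlM : ∀ n, ‖l n‖ ≤ M1 := fun n => (hM n).trans (by rw [hM1]; linarith [le_abs_self M])
  set η : ℝ := ε / (2 * (‖μ‖ + 1)) with hη
  have hη0 : 0 < η := by positivity
  set O : ℕ → Set K := fun N => {t | ∃ m, N ≤ m ∧ η < ‖l m t‖} with hO
  have hOo : ∀ N, IsOpen (O N) := by
    intro N
    have : O N = ⋃ m, ⋃ (_ : N ≤ m), {t | η < ‖l m t‖} := by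
      ext t; simp [hO]
    rw [this]
    exact isOpen_iUnion fun m => isOpen_iUnion fun _ => isOpen_lt continuous_const
      (l m).continuous.norm
  have hOa : Antitone O := by
    rintro N N' h t ⟨m, hm, hmt⟩
    exact ⟨m, h.trans hm, hmt⟩
  have hOe : ⋂ N, O N = ∅ := by
    rw [eq_empty_iff_forall_notMem]
    intro t ht
    rw [mem_iInter] at ht
    have h0 : Tendsto (fun n => ‖l n t‖) atTop (𝓝 0) := by
      have := (hl t).norm
      rwa [norm_zero] at this
    have h1 : ∀ᶠ m in atTop, ‖l m t‖ < η := h0.eventually_lt_const hη0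
    obtain ⟨N, hN⟩ := eventually_atTop.mp h1
    obtain ⟨m, hm, hmt⟩ := ht N
    exact absurd (hN m hm) (not_lt.mpr hmt.le)
  obtain ⟨N, hN⟩ := V_tendsto_zero μ O hOo hOa hOe (ε := ε / (4 * M1)) (by positivity)
  refine ⟨N, fun n hn => ?_⟩
  rw [dist_zero_right, Real.norm_eq_abs]
  have h1 : |μ (l n - soft η hη0 (l n))| ≤ ε / 2 := by
    calc |μ (l n - soft η hη0 (l n))| ≤ ‖μ‖ * ‖l n - soft η hη0 (l n)‖ := μ.le_opNorm _
      _ ≤ (‖μ‖ + 1) * η := by
          have := norm_sub_soft η hη0 (l n)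
          gcongr
          linarith
      _ = ε / 2 := by
          rw [hη]
          have : ‖μ‖ + 1 ≠ 0 := by positivity
          field_simp
  have h2 : |μ (soft η hη0 (l n))| ≤ ε / 4 := by
    have h3 := hN (M1⁻¹ • soft η hη0 (l n)) (by
      rw [norm_smul, Real.norm_eq_abs, abs_of_pos (inv_pos.mpr hM10), inv_mul_le_iff₀ hM10,
        mul_one]
      exact (norm_soft η hη0 (l n)).trans (hlM n)) (fun t ht => by
      have h4 : ‖l n t‖ ≤ η := by
        by_contra h
        exact ht ⟨n, hn, not_le.mp h⟩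
      rw [ContinuousMap.smul_apply, soft_eq_zero η hη0 (l n) h4, smul_zero])
    rw [map_smul, smul_eq_mul, abs_mul, abs_of_pos (inv_pos.mpr hM10),
      inv_mul_le_iff₀ hM10] at h3
    calc _ ≤ M1 * (ε / (4 * M1)) := h3
      _ = ε / 4 := by field_simp
  have h3 : μ (l n) = μ (l n - soft η hη0 (l n)) + μ (soft η hη0 (l n)) := by
    rw [← map_add, sub_add_cancel]
  rw [h3]
  calc _ ≤ _ := abs_add_le _ _
    _ < ε := by linarith

theorem dct : S_DCT.{u} := by
  intro K _ _ _ l g M hM hl φ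
  have hd : ∀ x, Tendsto (fun n => (l n - g) x) atTop (𝓝 0) := by
    intro x
    have h1 : Tendsto (fun n => l n x - g x) atTop (𝓝 (g x - g x)) := (hl x).sub_const _
    rw [sub_self] at h1
    exact h1
  have hb : ∀ n, ‖l n - g‖ ≤ M + ‖g‖ := fun n => (norm_sub_le _ _).trans (by linarith [hM n])
  have h1 := dct_real (Complex.reCLM.comp (φ.restrictScalars ℝ)) (fun n => l n - g) _ hb hd
  have h2 := dct_real (Complex.imCLM.comp (φ.restrictScalars ℝ)) (fun n => l n - g) _ hb hd
  have h3 : Tendsto (fun n => φ (l n - g)) atTop (𝓝 0) := by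
    rw [tendsto_zero_iff_norm_tendsto_zero]
    have h4 : Tendsto (fun n => |(φ (l n - g)).re| + |(φ (l n - g)).im|) atTop (𝓝 0) := by
      have h5 := h1.abs.add h2.abs
      rw [abs_zero, add_zero] at h5
      exact h5
    exact squeeze_zero (fun n => norm_nonneg _)
      (fun n => Complex.norm_le_abs_re_add_abs_im _) h4
  have h4 : Tendsto (fun n => φ (l n - g) + φ g) atTop (𝓝 (0 + φ g)) := h3.add_const _
  rw [zero_add] at h4
  refine h4.congr fun n => ?_
  rw [← map_add, sub_add_cancel]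

end Pool.Agent.Y177.WD
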